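import Pool.Agent.Helper56.IT.Defs

/-!
# Project IT (MP_a499ba_nt). Statements of the blocks
-/

set_option autoImplicit false

namespace Pool.Agent.IT

open Finset MeasureTheory Filter Topology Pool.Agent.Helper5.RM Pool.Agent.Helper96.AF Pool.Agent.Helper66.LW

/-! ### block B: random quarter turns make the phases harmless -/

/-- the condition on the phases used by the chaos bound: levels from `s0` to `K` -/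
def PhOK (s0 K : ℕ) (th : ℕ → ℝ) : Prop := ∀ s l : ℕ, s0 ≤ s → s ≤ l → l ≤ K → ∀ t ∈ Set.Icc (0 : ℝ) 1,
  |∑ p ∈ PP (Y l) \ PP (Y s), Real.cos (2 * (t * Real.log p - th p)) / p| ≤ 1

def StmtB : Prop := ∀ η : ℝ, 0 < η → ∃ s0 : ℕ, ∀ (K : ℕ) (ph : ℕ → ℝ),
  pr (PP (Y K)) (fun T2 => ¬ PhOK s0 K (tt ph T2)) ≤ η

/-! ### block A: the critical chaos with phases (port of Helper96.CM) -/

/-- the chaos off the line, with phases -/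
noncomputable def ddp (σ : ℝ) (th : ℕ → ℝ) (S T : Finset ℕ) (t : ℝ) : ℝ :=
  ∏ p ∈ S, (1 + sg T p * (2 * (p : ℝ) ^ (-(1 / 2 + σ)) * Real.cos (t * Real.log p - th p) / (1 + (p : ℝ) ^ (-(1 + 2 * σ)))))

def StmtA : Prop := ∀ (s0 : ℕ) (δ : ℝ), 0 < δ → ∃ r0 : ℕ, ∀ r : ℕ, r0 ≤ r → ∀ th : ℕ → ℝ, PhOK s0 r th →
  pr (PP (Y r)) (fun T => ∃ k : ℕ, 2 ^ (r / 4) ≤ k ∧ k ≤ 2 ^ r ∧
    ∫ t in (1 / 16 : ℝ)..(1 / 8), ddp (sr r) th (PP (Y r)) T t * (1 - Real.cos (k * t)) < (r : ℝ) ^ (-(1 / 2) - δ)) ≤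
    1 / (r : ℝ) ^ 2

/-! ### block C: real and imaginary parts -/

def StmtC : Prop := ∀ (r : ℕ) (h : ℕ → ℂ) (D : ℝ → ℂ) (B : ℝ), AdmC r h D B →
  Adm r (fun n => (h n).re) (fun t => (D t + (starRingEnd ℂ) (D (-t))) / 2) B ∧
  Adm r (fun n => (h n).im) (fun t => (D t - (starRingEnd ℂ) (D (-t))) / (2 * Complex.I)) B

/-! ### block Z: the upper bound for the smoothed sums from the bound for the sums (port of LW.Z_up) -/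

def StmtZ : Prop := ∀ K : Ker, ∃ C : ℝ, 0 < C ∧ ∃ r0 : ℕ, ∀ r : ℕ, r0 ≤ r → ∀ (h : ℕ → ℂ) (th : ℕ → ℝ) (T : Finset ℕ) (lam : ℝ), 0 ≤ lam →
    (∀ n ∈ Finset.Icc (Y r) (Y (r + 1)), (Hc h n + ∑ p ∈ BL r, fp th T p * Hc h (n / p)).re ≤ lam * Real.sqrt n) →
    ∀ α : ℝ, 0 ≤ α → α ≤ 1 / sr r → RC K r (fun n => (h n).re) (Ur r + α) +
      ∑ p ∈ BL r, sg T p * (Real.cos (th p) * aC K r (fun n => (h n).re) (Ur r + α) p -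
        Real.sin (th p) * aC K r (fun n => (h n).im) (Ur r + α) p) ≤ C * lam

/-! ### block S: separation by random quarter turns -/

def StmtS : Prop := ∀ (S : Finset ℕ) (x y : ℕ → ℝ) (m : ℝ), 0 < m → (∀ p ∈ S, x p ^ 2 + y p ^ 2 ≤ m) → ∀ ph : ℕ → ℝ,
  pr S (fun T2 => ∑ p ∈ S, (Real.cos (tt ph T2 p) * x p - Real.sin (tt ph T2 p) * y p) ^ 2 <
    (∑ p ∈ S, (x p ^ 2 + y p ^ 2)) / 4) ≤ Real.exp (-((∑ p ∈ S, (x p ^ 2 + y p ^ 2)) / (8 * m)))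

/-! ### block D: one scale -/

def StmtD : Prop := ∀ (A δ η : ℝ), 0 < A → 0 < δ → δ ≤ 1 / 16 → 0 < η → ∃ r0 : ℕ, ∀ r : ℕ, r0 ≤ r → ∀ (h : ℕ → ℂ) (D : ℝ → ℂ),
  AdmC r h D (A * 2 ^ r) → Low δ r D → ∀ ph : ℕ → ℝ,
    av (BL r) (fun T2 => pr (BL r) (fun T1 => ∀ n ∈ Finset.Icc (Y r) (Y (r + 1)),
      (Hc h n + ∑ p ∈ BL r, fp (tt ph T2) T1 p * Hc h (n / p)).re ≤ (r : ℝ) ^ (1 / 4 - δ) * Real.sqrt n)) ≤ η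

/-! ### blocks E (f = fM, D = DM) and F (f = fL, D = DL): the two models at one scale -/

/-- the sums in terms of the smooth part -/
def StmtFs (f : (ℕ → ℝ) → Finset ℕ → ℕ → ℂ) : Prop := ∀ (r : ℕ) (th : ℕ → ℝ) (T : Finset ℕ) (n : ℕ), n ≤ Y (r + 1) →
  Hc (smo r (f th T)) n + ∑ p ∈ BL r, fp th T p * Hc (smo r (f th T)) (n / p) = Hc (f th T) n

/-- admissibility outside a small set -/
def StmtAd (f : (ℕ → ℝ) → Finset ℕ → ℕ → ℂ) (D : ℕ → (ℕ → ℝ) → Finset ℕ → ℝ → ℂ) : Prop :=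
  ∀ η : ℝ, 0 < η → ∃ A : ℝ, 0 < A ∧ ∃ r0 : ℕ, ∀ r : ℕ, r0 ≤ r → ∀ ph : ℕ → ℝ,
    av (PP (Y r)) (fun T2 => pr (PP (Y r)) (fun T1 => ¬ AdmC r (smo r (f (tt ph T2) T1)) (D r (tt ph T2) T1) (A * 2 ^ r))) ≤ η

/-- mass outside a small set -/
def StmtLo (D : ℕ → (ℕ → ℝ) → Finset ℕ → ℝ → ℂ) : Prop :=
  ∀ (δ η : ℝ), 0 < δ → 0 < η → ∃ r0 : ℕ, ∀ r : ℕ, r0 ≤ r → ∀ ph : ℕ → ℝ,
    av (PP (Y r)) (fun T2 => pr (PP (Y r)) (fun T1 => ¬ Low δ r (D r (tt ph T2) T1))) ≤ η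

/-- the model: for every base point, at every large scale -/
def StmtG (f : (ℕ → ℝ) → Finset ℕ → ℕ → ℂ) : Prop := ∀ (δ η : ℝ), 0 < δ → 0 < η → ∃ r0 : ℕ, ∀ r : ℕ, r0 ≤ r → ∀ ph : ℕ → ℝ,
  av (PP (Y (r + 1))) (fun T2 => pr (PP (Y (r + 1))) (fun T1 => ∀ n ∈ Finset.Icc (Y r) (Y (r + 1)),
    ‖Hc (f (tt ph T2) T1) n‖ ≤ (r : ℝ) ^ (1 / 4 - δ) * Real.sqrt n)) ≤ η

/-! ### block K: from the model to the imaginary twists (effective Kronecker, averaging over shifts);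
(f, a) = (fM, muc) and (fL, lac) -/

def StmtK (f : (ℕ → ℝ) → Finset ℕ → ℕ → ℂ) (a : ℕ → ℂ) : Prop := StmtG f → ∀ (δ η : ℝ), 0 < δ → 0 < η → ∃ T0 : ℝ, ∀ T : ℝ, T0 ≤ T →
  volume {t : ℝ | 0 ≤ t ∧ t ≤ T ∧ ∀ n : ℕ, 1 ≤ n → ‖Sw a t n‖ ≤ Real.log (Real.log (Real.log T)) ^ (1 / 4 - δ) * Real.sqrt n} ≤
    ENNReal.ofReal (η * T)

/-! ### blocks H, I: recurrence and the remainder; a = muc, lac -/

/-- if `∑_{n ≤ x} a(n) = O(√x)` then the values of the twisted sums recur, up to an error `e t` that tends to zero -/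
def StmtH (a : ℕ → ℂ) : Prop := (∃ K : ℝ, ∀ x : ℝ, 1 ≤ x → ‖Sw a 0 x‖ ≤ K * Real.sqrt x) →
  ∃ e : ℝ → ℝ, Tendsto e atTop (𝓝 0) ∧ ∀ t : ℝ, 1 ≤ t → ∀ n : ℕ, 1 ≤ n → ∀ x0 : ℝ, ∃ x : ℝ, x0 ≤ x ∧
    (‖Sw a t n‖ / Real.sqrt n - e t) * Real.sqrt x < ‖Sw a t x‖

/-- the twisted sums are comparable: if they are `O(√x)` for one `t` they are for `t = 0` -/
def StmtL (a : ℕ → ℂ) : Prop := ∀ t : ℝ, (∃ C x0 : ℝ, ∀ x : ℝ, x0 ≤ x → ‖Sw a t x‖ ≤ C * Real.sqrt x) →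
  ∃ K : ℝ, ∀ x : ℝ, 1 ≤ x → ‖Sw a 0 x‖ ≤ K * Real.sqrt x

/-- the theorem -/
def StmtFin (a : ℕ → ℂ) : Prop := ∀ δ : ℝ, 0 < δ → Tendsto (fun T : ℝ => (volume {t : ℝ | 0 ≤ t ∧ t ≤ T ∧
  ¬ ∀ x0 : ℝ, ∃ x : ℝ, x0 ≤ x ∧ Real.log (Real.log (Real.log T)) ^ (1 / 4 - δ) * Real.sqrt x < ‖Sw a t x‖}).toReal / T) atTop (𝓝 0)

end Pool.Agent.IT
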