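import Pool.Agent.Helper56.IT.Stmts
import Pool.Agent.Helper99.IT.Kron

/-!
# Project IT (MP_a499ba_nt), block K1: the twisted coefficients are close to the model along suitable shifts
-/

set_option autoImplicit false

namespace Pool.Agent.IT

open Finset MeasureTheory Filter Topology Pool.Agent.Helper5.RM Pool.Agent.Helper96.AF Pool.Agent.Helper66.LW

/-- `a n n^{-it}` is close to the model `f` when the values at the primes are -/
def Close (f : (ℕ → ℝ) → Finset ℕ → ℕ → ℂ) (a : ℕ → ℂ) : Prop := ∀ (th : ℕ → ℝ) (T : Finset ℕ) (t ε : ℝ) (n : ℕ), 0 ≤ ε → 1 ≤ n →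
  (∀ p ∈ n.primeFactors, ‖-nit t p - fp th T p‖ ≤ ε) → ‖a n * nit t n - f th T n‖ ≤ n * ε

lemma norm_fp (th : ℕ → ℝ) (T : Finset ℕ) (p : ℕ) : ‖fp th T p‖ = 1 := by
  unfold fp
  rw [norm_mul, Complex.norm_real, Real.norm_eq_abs, abs_sg, one_mul, mul_comm Complex.I, Complex.norm_exp_ofReal_mul_I]

lemma norm_nit {n : ℕ} (hn : 1 ≤ n) (t : ℝ) : ‖nit t n‖ = 1 := by
  unfold nit
  rw [Complex.norm_natCast_cpow_of_pos (by omega)]
  simp

lemma nit_mul (t : ℝ) (m n : ℕ) : nit t (m * n) = nit t m * nit t n := by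
  unfold nit
  rw [Nat.cast_mul, Complex.natCast_mul_natCast_cpow]

lemma nit_one (t : ℝ) : nit t 1 = 1 := by simp [nit]

lemma nit_eq {n : ℕ} (hn : 1 ≤ n) (t : ℝ) : nit t n = Complex.exp (-(Complex.I * (t * Real.log n : ℝ))) := by
  unfold nit
  have h : (n : ℂ) ≠ 0 := by exact_mod_cast (by omega : n ≠ 0)
  rw [Complex.cpow_def_of_ne_zero h, ← Complex.natCast_log]
  congr 1
  push_cast
  ring

lemma nit_add {n : ℕ} (hn : 1 ≤ n) (s t : ℝ) : nit (s + t) n = nit s n * nit t n := by
  rw [nit_eq hn, nit_eq hn, nit_eq hn, ← Complex.exp_add]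
  congr 1
  push_cast
  ring

lemma prod_close {S : Finset ℕ} {w v : ℕ → ℂ} {e : ℕ → ℝ} (hw : ∀ p ∈ S, ‖w p‖ = 1) (hv : ∀ p ∈ S, ‖v p‖ = 1)
    (h : ∀ p ∈ S, ‖w p - v p‖ ≤ e p) : ‖∏ p ∈ S, w p - ∏ p ∈ S, v p‖ ≤ ∑ p ∈ S, e p := by
  classical
  induction S using Finset.induction_on with
  | empty => simp
  | insert q S hq ih =>
    rw [Finset.prod_insert hq, Finset.prod_insert hq, Finset.sum_insert hq]
    have h1 := ih (fun p hp => hw p (Finset.mem_insert_of_mem hp)) (fun p hp => hv p (Finset.mem_insert_of_mem hp))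
      (fun p hp => h p (Finset.mem_insert_of_mem hp))
    have h2 := h q (Finset.mem_insert_self q S)
    have h3 : w q * ∏ p ∈ S, w p - v q * ∏ p ∈ S, v p =
        (w q - v q) * ∏ p ∈ S, w p + v q * (∏ p ∈ S, w p - ∏ p ∈ S, v p) := by ring
    rw [h3]
    refine (norm_add_le _ _).trans ?_
    rw [norm_mul, norm_mul, hv q (Finset.mem_insert_self q S), norm_prod,
      Finset.prod_congr rfl (fun p hp => hw p (Finset.mem_insert_of_mem hp)), Finset.prod_const_one]
    linarith

lemma pow_close {w v : ℂ} {e : ℝ} (hw : ‖w‖ = 1) (hv : ‖v‖ = 1) (h : ‖w - v‖ ≤ e) (k : ℕ) : ‖w ^ k - v ^ k‖ ≤ k * e := by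
  induction k with
  | zero => simp
  | succ k ih =>
    have h3 : w ^ (k + 1) - v ^ (k + 1) = (w - v) * w ^ k + v * (w ^ k - v ^ k) := by ring
    rw [h3]
    refine (norm_add_le _ _).trans ?_
    rw [norm_mul, norm_mul, norm_pow, hw, hv, one_pow]
    push_cast
    linarith

lemma nit_prod (t : ℝ) {n : ℕ} (hn : n ≠ 0) : nit t n = ∏ p ∈ n.primeFactors, nit t p ^ n.factorization p := by
  have h1 : ∀ (k m : ℕ), nit t (m ^ k) = nit t m ^ k := by
    intro k m
    induction k with
    | zero => simp [nit_one]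
    | succ k ih => rw [pow_succ, nit_mul, ih, pow_succ]
  have h2 : ∀ (S : Finset ℕ) (g : ℕ → ℕ), nit t (∏ p ∈ S, g p) = ∏ p ∈ S, nit t (g p) := by
    intro S g
    classical
    induction S using Finset.induction_on with
    | empty => simp [nit_one]
    | insert q S hq ih => rw [Finset.prod_insert hq, nit_mul, ih, Finset.prod_insert hq]
  conv_lhs => rw [← Nat.prod_factorization_pow_eq_self hn]
  rw [Finsupp.prod, Nat.support_factorization, h2]
  exact Finset.prod_congr rfl fun p _ => h1 _ _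

lemma sum_fact_le {n : ℕ} (hn : n ≠ 0) : ∑ p ∈ n.primeFactors, (n.factorization p : ℝ) ≤ n := by
  have h1 : ∑ p ∈ n.primeFactors, n.factorization p ≤ n := by
    have h2 : ∑ p ∈ n.primeFactors, n.factorization p < 2 ^ (∑ p ∈ n.primeFactors, n.factorization p) := Nat.lt_two_pow_self
    have h3 : 2 ^ (∑ p ∈ n.primeFactors, n.factorization p) ≤ n := by
      rw [← Finset.prod_pow_eq_pow_sum]
      conv_rhs => rw [← Nat.prod_factorization_pow_eq_self hn]
      rw [Finsupp.prod, Nat.support_factorization]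
      exact Finset.prod_le_prod' fun p hp => Nat.pow_le_pow_left (Nat.prime_of_mem_primeFactors hp).two_le _
    omega
  exact_mod_cast h1

lemma neg_one_pow_card {n : ℕ} : ((-1 : ℂ)) ^ ArithmeticFunction.cardFactors n = ∏ p ∈ n.primeFactors, (-1 : ℂ) ^ n.factorization p := by
  rw [ArithmeticFunction.cardFactors_eq_sum_factorization, Finsupp.sum, Nat.support_factorization, Finset.prod_pow_eq_pow_sum]

lemma fact_one {n : ℕ} (hs : Squarefree n) {p : ℕ} (hp : p ∈ n.primeFactors) : n.factorization p = 1 := by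
  have h1 := hs.natFactorization_le_one p
  have h2 : 0 < n.factorization p := (Nat.prime_of_mem_primeFactors hp).factorization_pos_of_dvd
    (Nat.pos_of_mem_primeFactors hp |> fun _ => (Nat.mem_primeFactors.1 hp).2.2) (Nat.dvd_of_mem_primeFactors hp)
  omega

theorem close_M : Close fM muc := by
  intro th T t ε n hε hn h
  have hn0 : n ≠ 0 := by omega
  unfold fM
  split_ifs with hs
  · have h1 : muc n * nit t n = ∏ p ∈ n.primeFactors, (-nit t p) := by
      unfold muc
      rw [ArithmeticFunction.moebius_apply_of_squarefree hs, nit_prod t hn0]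
      push_cast
      rw [neg_one_pow_card, ← Finset.prod_mul_distrib]
      refine Finset.prod_congr rfl fun p hp => ?_
      rw [fact_one hs hp]
      ring
    rw [h1]
    refine (prod_close (e := fun _ => ε) (fun p hp => ?_) (fun p _ => norm_fp th T p) h).trans ?_
    · rw [norm_neg]
      exact norm_nit (Nat.prime_of_mem_primeFactors hp).one_lt.le t
    · rw [Finset.sum_const, nsmul_eq_mul]
      refine mul_le_mul_of_nonneg_right ?_ hε
      have h2 : n.primeFactors.card ≤ n := by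
        have h3 : n.primeFactors ⊆ Finset.Icc 1 n := fun q hq => Finset.mem_Icc.2
          ⟨(Nat.prime_of_mem_primeFactors hq).one_lt.le, Nat.le_of_dvd (by omega) (Nat.dvd_of_mem_primeFactors hq)⟩
        simpa using Finset.card_le_card h3
      exact_mod_cast h2
  · have h1 : muc n = 0 := by
      unfold muc
      rw [ArithmeticFunction.moebius_eq_zero_of_not_squarefree hs]
      simp
    rw [h1]
    simp only [zero_mul, sub_zero, norm_zero]
    positivity

theorem close_L : Close fL lac := by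
  intro th T t ε n hε hn h
  have hn0 : n ≠ 0 := by omega
  unfold fL lac
  rw [if_neg hn0, if_neg hn0, neg_one_pow_card, nit_prod t hn0, ← Finset.prod_mul_distrib]
  refine (prod_close (e := fun p => n.factorization p * ε) (fun p hp => ?_) (fun p _ => ?_) fun p hp => ?_).trans ?_
  · rw [← mul_pow, norm_pow, norm_mul, norm_neg, norm_one, one_mul, norm_nit (Nat.prime_of_mem_primeFactors hp).one_lt.le, one_pow]
  · rw [norm_pow, norm_fp, one_pow]
  · rw [← mul_pow]
    refine pow_close ?_ (norm_fp th T p) ?_ _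
    · rw [norm_mul, norm_neg, norm_one, one_mul, norm_nit (Nat.prime_of_mem_primeFactors hp).one_lt.le]
    · rw [neg_one_mul]
      exact h p hp
  · rw [← Finset.sum_mul]
    exact mul_le_mul_of_nonneg_right (sum_fact_le hn0) hε

open Pool.Agent.Helper99.IT in
/-- a shift realising a given pattern -/
theorem shift_exists : ∃ X0 : ℕ, ∀ X : ℕ, X0 ≤ X → ∀ T1 T2 : Finset ℕ, ∃ τ : ℝ, 0 ≤ τ ∧ τ ≤ Real.exp ((X : ℝ) ^ 9) ∧
    ∀ t : ℝ, ∀ p : ℕ, p.Prime → p ≤ X → ‖-nit (t + τ) p - fp (tt (fun p => -(t * Real.log p)) T2) T1 p‖ ≤ 1 / (X : ℝ) ^ 3 := by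
  obtain ⟨X0, h0⟩ := kron_eff
  refine ⟨X0, fun X hX T1 T2 => ?_⟩
  obtain ⟨τ, h1, h2, h3⟩ := h0 X hX (fun p => (if p ∈ T1 then 0 else Real.pi) + if p ∈ T2 then Real.pi / 2 else 0)
  refine ⟨τ, h1, h2, fun t p hp hpX => ?_⟩
  refine le_trans (le_of_eq ?_) (h3 p hp hpX)
  have hp1 : 1 ≤ p := hp.one_lt.le
  have hz : zz (fun p => (if p ∈ T1 then 0 else Real.pi) + if p ∈ T2 then Real.pi / 2 else 0) p τ =
      -((sg T1 p : ℝ) : ℂ) * Complex.exp (Complex.I * ((if p ∈ T2 then Real.pi / 2 else 0 : ℝ) : ℂ)) * Complex.exp (Complex.I * (τ * Real.log p)) := by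
    unfold zz sg
    have hpi : Complex.exp (Complex.I * Real.pi) = -1 := by rw [mul_comm, Complex.exp_pi_mul_I]
    by_cases hT : p ∈ T1
    · simp only [hT, if_true]
      push_cast
      rw [neg_neg, one_mul, ← Complex.exp_add]
      congr 1
      ring
    · simp only [hT, if_false]
      push_cast
      rw [← hpi, ← Complex.exp_add, ← Complex.exp_add]
      congr 1
      ring
  rw [hz, nit_add hp1, nit_eq hp1 t, nit_eq hp1 τ]
  unfold fp tt
  have e1 : Complex.exp (Complex.I * (((-(t * Real.log p) + if p ∈ T2 then Real.pi / 2 else 0 : ℝ)) : ℂ)) =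
      Complex.exp (-(Complex.I * (t * Real.log p : ℝ))) * Complex.exp (Complex.I * ((if p ∈ T2 then Real.pi / 2 else 0 : ℝ) : ℂ)) := by
    rw [← Complex.exp_add]
    congr 1
    push_cast
    ring
  rw [e1]
  have e2 : ‖Complex.exp (-(Complex.I * (t * Real.log p : ℝ)))‖ = 1 := by
    rw [← mul_neg, ← Complex.ofReal_neg, mul_comm, Complex.norm_exp_ofReal_mul_I]
  have e3 : ‖Complex.exp (-(Complex.I * (τ * Real.log p : ℝ)))‖ = 1 := by
    rw [← mul_neg, ← Complex.ofReal_neg, mul_comm, Complex.norm_exp_ofReal_mul_I]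
  have e4 : Complex.exp (-(Complex.I * (τ * Real.log p : ℝ))) * Complex.exp (Complex.I * (τ * Real.log p)) = 1 := by
    rw [← Complex.exp_add]
    push_cast
    rw [neg_add_cancel, Complex.exp_zero]
  set A := Complex.exp (-(Complex.I * (t * Real.log p : ℝ)))
  set B := Complex.exp (-(Complex.I * (τ * Real.log p : ℝ)))
  set C := Complex.exp (Complex.I * (τ * Real.log p))
  set E := Complex.exp (Complex.I * ((if p ∈ T2 then Real.pi / 2 else 0 : ℝ) : ℂ))
  set s := ((sg T1 p : ℝ) : ℂ)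
  have e5 : -(A * B) - s * (A * E) = A * B * (-s * E * C - 1) - (s * A * E) * (1 - B * C) := by ring
  rw [e5, e4, sub_self, mul_zero, sub_zero, norm_mul, norm_mul, e2, e3]
  ring

end Pool.Agent.IT
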