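import Pool.Agent.Helper66.LW.X

/-!
# Project IT (MP_a499ba_nt): the sums of `μ(n) n^{-it}` and `λ(n) n^{-it}`. Definitions

Model: `f(p) = ± e^{i th p}` with independent signs (`sg T p`), the phases `th = tt ph T2` are a fixed base point `ph p`
plus a quarter turn at the primes of the second random set `T2`.
-/

set_option autoImplicit false

namespace Pool.Agent.IT

open Finset MeasureTheory Pool.Agent.Helper5.RM Pool.Agent.Helper96.AF Pool.Agent.Helper66.LW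
open scoped ContDiff

/-- the phases: base point `ph`, quarter turns at the primes of `T` -/
noncomputable def tt (ph : ℕ → ℝ) (T : Finset ℕ) (p : ℕ) : ℝ := ph p + if p ∈ T then Real.pi / 2 else 0

/-- the value at the prime `p`: sign `-1` at the primes of `T` -/
noncomputable def fp (th : ℕ → ℝ) (T : Finset ℕ) (p : ℕ) : ℂ := (sg T p : ℂ) * Complex.exp (Complex.I * (th p : ℂ))

/-- the squarefree model -/
noncomputable def fM (th : ℕ → ℝ) (T : Finset ℕ) (n : ℕ) : ℂ := if Squarefree n then ∏ p ∈ n.primeFactors, fp th T p else 0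

/-- the completely multiplicative model -/
noncomputable def fL (th : ℕ → ℝ) (T : Finset ℕ) (n : ℕ) : ℂ :=
  if n = 0 then 0 else ∏ p ∈ n.primeFactors, fp th T p ^ n.factorization p

/-- the part from the integers without a prime factor `> Y r` -/
noncomputable def smo (r : ℕ) (f : ℕ → ℂ) (n : ℕ) : ℂ := if ∀ p ∈ n.primeFactors, p ≤ Y r then f n else 0

/-- partial sums -/
noncomputable def Hc (h : ℕ → ℂ) (n : ℕ) : ℂ := ∑ m ∈ Finset.Icc 1 n, h m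

/-- normalised partial sums on the logarithmic scale -/
noncomputable def Ac (h : ℕ → ℂ) (v : ℝ) : ℂ := (Real.exp (-(v / 2)) : ℂ) * Hc h ⌊Real.exp v⌋₊

/-- the Dirichlet series of `smo r (fM th T)` on the line `Re s = 1/2 + sr r` -/
noncomputable def DM (r : ℕ) (th : ℕ → ℝ) (T : Finset ℕ) (t : ℝ) : ℂ :=
  ∏ p ∈ PP (Y r), (1 + fp th T p * (p : ℂ) ^ (-(((1 / 2 + sr r : ℝ) : ℂ) + Complex.I * (t : ℂ))))

/-- the Dirichlet series of `smo r (fL th T)` on the line `Re s = 1/2 + sr r` -/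
noncomputable def DL (r : ℕ) (th : ℕ → ℝ) (T : Finset ℕ) (t : ℝ) : ℂ :=
  ∏ p ∈ PP (Y r), (1 - fp th T p * (p : ℂ) ^ (-(((1 / 2 + sr r : ℝ) : ℂ) + Complex.I * (t : ℂ))))⁻¹

/-- complex version of `LW.Adm` -/
structure AdmC (r : ℕ) (h : ℕ → ℂ) (D : ℝ → ℂ) (B : ℝ) : Prop where
  le_one : ∀ n, ‖h n‖ ≤ 1
  summ : Summable fun n : ℕ => ‖h n‖ * (n : ℝ) ^ (-(1 / 2 + sr r))
  smooth : ContDiff ℝ ∞ D
  hasSum : ∀ t : ℝ, HasSum (fun n : ℕ => h n * (n : ℂ) ^ (-(((1 / 2 + sr r : ℝ) : ℂ) + Complex.I * (t : ℂ)))) (D t)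
  int : IntegrableOn (fun v => ‖Ac h v‖ ^ 2 * Real.exp (-(sr r * v))) (Set.Ioi 0)
  mass0 : ∫ v in (0 : ℝ)..(2 * Vr r), ‖Ac h v‖ ^ 2 ≤ B
  mass1 : ∫ v in Set.Ioi (0 : ℝ), ‖Ac h v‖ ^ 2 * Real.exp (-(sr r * v)) ≤ B

/-- the mass of the Dirichlet series is not too small -/
def Low (δ : ℝ) (r : ℕ) (D : ℝ → ℂ) : Prop := ∀ k : ℕ, 2 ^ (r / 4) ≤ k → k ≤ 2 ^ r →
  2 ^ r * (r : ℝ) ^ (-(1 / 2) - δ) ≤ ∫ t in (1 / 16 : ℝ)..(1 / 8), (1 - Real.cos (k * t)) * ‖D t‖ ^ 2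

/-! ### the twisted sums -/

/-- `n^{-it}` -/
noncomputable def nit (t : ℝ) (n : ℕ) : ℂ := (n : ℂ) ^ (-(Complex.I * (t : ℂ)))

/-- `μ(n)` and `λ(n)` as complex numbers -/
noncomputable def muc (n : ℕ) : ℂ := ((ArithmeticFunction.moebius n : ℤ) : ℂ)

noncomputable def lac (n : ℕ) : ℂ := if n = 0 then 0 else (-1 : ℂ) ^ ArithmeticFunction.cardFactors n

/-- `∑_{n ≤ x} a(n) n^{-it}` -/
noncomputable def Sw (a : ℕ → ℂ) (t x : ℝ) : ℂ := ∑ n ∈ Finset.Icc 1 ⌊x⌋₊, a n * nit t n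

end Pool.Agent.IT
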