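import Pool.Agent.Helper55.IT.G
import Pool.Agent.Helper55.IT.D
import Pool.Agent.Helper90.IT.S
import Pool.Agent.Helper90.IT.Fs
import Pool.Agent.Helper69.IT.AdM
import Pool.Agent.Helper51.IT.L3
import Pool.Agent.Helper11.IT.LoM
import Pool.Agent.Helper11.IT.LoL
import Pool.Agent.Helper96.IT.StA
import Pool.Agent.Helper96.IT.StB
import Pool.Agent.Helper52.IT.Z
import Pool.Agent.Helper66.IT.C
import Pool.Agent.Helper56.IT.K

/-!
# Project IT (MP_a499ba_nt), the model part assembled: `StmtG`, `StmtKL`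
-/

set_option autoImplicit false

namespace Pool.Agent.IT

theorem stmtD_all : StmtD := stmtD_of stmtC stmtZ stmtS

theorem stmtG_M : StmtG fM :=
  stmtG_of locF_M stmtD_all stmtFs_M stmtAd_M (Pool.Agent.Helper11.IT.stmtLo_M Pool.Agent.Helper96.IT.stmtA Pool.Agent.Helper96.IT.stmtB)

theorem stmtG_L : StmtG fL :=
  stmtG_of locF_L stmtD_all stmtFs_L Pool.Agent.Helper51.IT.stmtAd_L
    (Pool.Agent.Helper11.IT.stmtLo_L Pool.Agent.Helper96.IT.stmtA Pool.Agent.Helper96.IT.stmtB)

theorem stmtKL_M : StmtKL muc := stmtKL_of close_M stmtG_M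

theorem stmtKL_L : StmtKL lac := stmtKL_of close_L stmtG_L

end Pool.Agent.IT
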