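import Pool.Agent.Helper55.IT.FinDirW
import Pool.Agent.Helper99.IT.Tr

/-!
# Project IT (MP_a499ba_nt): all `s` close to `t` at once
-/

set_option autoImplicit false

namespace Pool.Agent.IT

open Finset MeasureTheory Filter Topology Pool.Agent.Helper5.RM Pool.Agent.Helper96.AF Pool.Agent.Helper66.LW
open Pool.Agent.Helper99.IT (abel99 norm_nit99 nit_diff99 sqrt_sum99)

/-- comparison of the twisted sums at two heights, finite range -/
theorem cmpN (a : ℕ → ℂ) {s t C N : ℝ} (hC : ∀ n : ℕ, 1 ≤ n → (n : ℝ) ≤ N → ‖Sw a s n‖ ≤ C * Real.sqrt n) :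
    ∀ n : ℕ, 1 ≤ n → (n : ℝ) ≤ N → ‖Sw a t n‖ ≤ (1 + 2 * |t - s|) * C * Real.sqrt n := by
  intro n hn hnN
  obtain ⟨M, rfl⟩ : ∃ M : ℕ, n = M + 1 := ⟨n - 1, by omega⟩
  have hC0 : 0 ≤ C := by
    have h1 := hC 1 le_rfl (le_trans (by exact_mod_cast (by omega : 1 ≤ M + 1)) hnN)
    have h2 := norm_nonneg (Sw a s ((1 : ℕ) : ℝ))
    simp only [Nat.cast_one, Real.sqrt_one, mul_one] at h1 h2
    linarith
  have hS : ∀ (r : ℝ) (m : ℕ), Sw a r (m : ℝ) = ∑ k ∈ Finset.Icc 1 m, a k * nit r k := by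
    intro r m
    unfold Sw
    rw [Nat.floor_natCast]
  rw [hS, abel99 a s t M]
  refine (norm_sub_le _ _).trans ?_
  have h1 : ‖(∑ k ∈ Finset.Icc 1 (M + 1), a k * nit s k) * nit (t - s) (M + 1)‖ ≤ C * Real.sqrt ((M + 1 : ℕ) : ℝ) := by
    rw [norm_mul, norm_nit99 _ (by omega), mul_one, ← hS]
    exact hC (M + 1) hn hnN
  have h2 : ‖∑ k ∈ Finset.range M, (∑ m ∈ Finset.Icc 1 (k + 1), a m * nit s m) *
      (nit (t - s) (k + 1 + 1) - nit (t - s) (k + 1))‖ ≤ 2 * |t - s| * C * Real.sqrt ((M + 1 : ℕ) : ℝ) := by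
    refine (norm_sum_le _ _).trans ?_
    have h3 : ∀ k ∈ Finset.range M, ‖(∑ m ∈ Finset.Icc 1 (k + 1), a m * nit s m) *
        (nit (t - s) (k + 1 + 1) - nit (t - s) (k + 1))‖ ≤ |t - s| * C * (1 / Real.sqrt ((k : ℝ) + 1)) := by
      intro k hk
      have hk1 : k + 1 ≤ M := by
        have := Finset.mem_range.1 hk
        omega
      have h4 : (((k + 1 : ℕ) : ℕ) : ℝ) ≤ N := by
        refine le_trans ?_ hnN
        exact_mod_cast (by omega : k + 1 ≤ M + 1)
      have h5 := hC (k + 1) (by omega) h4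
      rw [hS] at h5
      have h6 := nit_diff99 (t - s) (show 1 ≤ k + 1 by omega)
      have h7 : (0 : ℝ) < (k : ℝ) + 1 := by positivity
      rw [norm_mul]
      refine (mul_le_mul h5 h6 (norm_nonneg _) (by positivity)).trans ?_
      have h8 : Real.sqrt ((k : ℝ) + 1) * Real.sqrt ((k : ℝ) + 1) = (k : ℝ) + 1 := Real.mul_self_sqrt h7.le
      have h9 : 0 < Real.sqrt ((k : ℝ) + 1) := Real.sqrt_pos.2 h7
      push_cast
      apply le_of_eq
      rw [mul_one_div, mul_div_assoc', div_eq_div_iff h7.ne' h9.ne']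
      calc C * Real.sqrt ((k : ℝ) + 1) * |t - s| * Real.sqrt ((k : ℝ) + 1) =
            |t - s| * C * (Real.sqrt ((k : ℝ) + 1) * Real.sqrt ((k : ℝ) + 1)) := by ring
        _ = _ := by rw [h8]
    refine (Finset.sum_le_sum h3).trans ?_
    rw [← Finset.mul_sum]
    have h4 : Real.sqrt M ≤ Real.sqrt ((M + 1 : ℕ) : ℝ) := Real.sqrt_le_sqrt (by push_cast; linarith)
    calc |t - s| * C * ∑ i ∈ Finset.range M, 1 / Real.sqrt ((i : ℝ) + 1) ≤ |t - s| * C * (2 * Real.sqrt M) :=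
          mul_le_mul_of_nonneg_left (sqrt_sum99 M) (by positivity)
      _ ≤ |t - s| * C * (2 * Real.sqrt ((M + 1 : ℕ) : ℝ)) := by gcongr
      _ = _ := by ring
  calc _ ≤ C * Real.sqrt ((M + 1 : ℕ) : ℝ) + 2 * |t - s| * C * Real.sqrt ((M + 1 : ℕ) : ℝ) := add_le_add h1 h2
    _ = _ := by ring

/-- the property of `s`: for every `φ` there is `K` such that for all `X ≥ K` some `x` in `[X, K X log X]` has
`Re (e^{iφ} ∑_{n ≤ x} a(n) (x/n)^{is}) > B √x` -/
def ExW (a : ℕ → ℂ) (B s : ℝ) : Prop := ∀ φ : ℝ, ∃ K : ℝ, ∀ X : ℝ, K ≤ X → ∃ x : ℝ, X ≤ x ∧ x ≤ K * X * Real.log X ∧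
  B * Real.sqrt x < (Complex.exp (Complex.I * φ) * mt a s x).re

/-- for all `t` in `[U, U + H]` outside a set of measure `≤ η H`, all `s` within `(log log log H)^{δ/2}` of `t` have the property -/
def StmtNear (a : ℕ → ℂ) : Prop := ∀ (δ η : ℝ), 0 < δ → δ ≤ 1 / 4 → 0 < η → ∃ H0 : ℝ, ∀ H : ℝ, H0 ≤ H → ∀ U : ℝ,
  volume {t : ℝ | U ≤ t ∧ t ≤ U + H ∧ ¬ ∀ s : ℝ, |s - t| ≤ Real.log (Real.log (Real.log H)) ^ (δ / 2) →
    ExW a (Real.log (Real.log (Real.log H)) ^ (1 / 4 - δ)) s} ≤ ENNReal.ofReal (η * H)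

private theorem lll_tendsto56 : Tendsto (fun T : ℝ => Real.log (Real.log (Real.log T))) atTop atTop :=
  Real.tendsto_log_atTop.comp (Real.tendsto_log_atTop.comp Real.tendsto_log_atTop)

/-- the deterministic step -/
private theorem core56 {a : ℕ → ℂ} {C B s : ℝ} (hB : 0 ≤ B) (hs : DgW a C s) (hnot : ¬ ExW a B s) :
    ∀ n : ℕ, 1 ≤ n → 2 * Real.pi * (n + 1) ≤ |s| → ‖Sw a s n‖ ≤ 2 * (3 * B + |C|) * Real.sqrt n := by
  intro n hn hsn
  unfold ExW at hnot
  push Not at hnot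
  obtain ⟨φ, hx0⟩ := hnot
  obtain ⟨x, hx1, hx2, hx3⟩ := circle57 a hn hsn φ
  have hn1 : (1 : ℝ) ≤ n := by exact_mod_cast hn
  have h5 := hs φ _ hB hx0 x (hn1.trans hx1)
  rw [hx3] at h5
  have h6 : Real.sqrt x ≤ 2 * Real.sqrt n := by
    rw [show 2 * Real.sqrt n = Real.sqrt (4 * n) by
      rw [Real.sqrt_mul (by norm_num), show (4 : ℝ) = 2 ^ 2 by norm_num, Real.sqrt_sq (by norm_num)]]
    exact Real.sqrt_le_sqrt (by linarith)
  have h7 : 3 * B + C ≤ 3 * B + |C| := by linarith [le_abs_self C]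
  have h8 : 0 ≤ 3 * B + |C| := by positivity
  calc ‖Sw a s n‖ ≤ (3 * B + C) * Real.sqrt x := h5
    _ ≤ (3 * B + |C|) * Real.sqrt x := mul_le_mul_of_nonneg_right h7 (Real.sqrt_nonneg _)
    _ ≤ (3 * B + |C|) * (2 * Real.sqrt n) := mul_le_mul_of_nonneg_left h6 h8
    _ = _ := by ring

theorem stmtNear_of {a : ℕ → ℂ} (hK : StmtKL a) (hD : ∃ C : ℝ, ∀ t : ℝ, 10 ≤ |t| → DgW a C t) : StmtNear a := by
  intro δ η hδ hδ4 hη
  have hpi := Real.pi_pos
  have hpi3 := Real.pi_gt_three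
  obtain ⟨C, hC⟩ := hD
  obtain ⟨H1, h1⟩ := hK (δ / 4) (η / 2) (by positivity) (by positivity)
  have e0 : Tendsto (fun L : ℝ => L ^ (δ / 4)) atTop atTop := tendsto_rpow_atTop (by positivity)
  have e01 : ∀ᶠ H : ℝ in atTop, 6 * (3 + |C|) ≤ Real.log (Real.log (Real.log H)) ^ (δ / 4) :=
    (e0.comp lll_tendsto56).eventually_ge_atTop _
  obtain ⟨H2, h2⟩ := Filter.eventually_atTop.1 ((lll_tendsto56.eventually_ge_atTop 1).and e01)
  have hlo : ∀ᶠ H : ℝ in atTop, 16 * Real.pi * (Real.log H + 1) ≤ η / 2 * H := by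
    have e1 : Tendsto (fun H : ℝ => Real.log H / H) atTop (𝓝 0) := by
      have := Real.isLittleO_log_id_atTop.tendsto_div_nhds_zero
      exact this
    have e2 := e1.eventually_le_const (show (0 : ℝ) < η / 2 / (16 * Real.pi) / 2 by positivity)
    filter_upwards [e2, eventually_ge_atTop (2 / (η / 2 / (16 * Real.pi))), eventually_gt_atTop 0] with H e3 e4 e5
    rw [div_le_iff₀ e5] at e3
    rw [div_le_iff₀ (by positivity)] at e4
    have e6 : Real.log H + 1 ≤ η / 2 / (16 * Real.pi) * H := by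
      calc Real.log H + 1 ≤ η / 2 / (16 * Real.pi) / 2 * H + 1 := by linarith
        _ ≤ η / 2 / (16 * Real.pi) * H := by linarith
    calc 16 * Real.pi * (Real.log H + 1) ≤ 16 * Real.pi * (η / 2 / (16 * Real.pi) * H) := mul_le_mul_of_nonneg_left e6 (by positivity)
      _ = η / 2 * H := by field_simp
  obtain ⟨H4, h4⟩ := Filter.eventually_atTop.1 hlo
  refine ⟨max (max H1 H2) (max H4 (Real.exp (Real.exp 1))), fun H hH U => ?_⟩
  have hH1 : H1 ≤ H := ((le_max_left _ _).trans (le_max_left _ _)).trans hH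
  have hH2 : H2 ≤ H := ((le_max_right _ _).trans (le_max_left _ _)).trans hH
  have hH4 : H4 ≤ H := ((le_max_left _ _).trans (le_max_right _ _)).trans hH
  have hH5 : Real.exp (Real.exp 1) ≤ H := ((le_max_right _ _).trans (le_max_right _ _)).trans hH
  have hHp : 0 < H := lt_of_lt_of_le (Real.exp_pos _) hH5
  have k1 := h1 H hH1 U
  obtain ⟨k2, k3⟩ := h2 H hH2
  have k4 := h4 H hH4
  have hl1 : Real.exp 1 ≤ Real.log H := by
    rw [← Real.log_exp (Real.exp 1)]
    exact Real.log_le_log (Real.exp_pos _) hH5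
  have hl2 : 1 ≤ Real.log (Real.log H) := by
    rw [← Real.log_exp 1]
    exact Real.log_le_log (Real.exp_pos _) hl1
  set L := Real.log (Real.log (Real.log H)) with hL
  have hLH : L ≤ Real.log H := by
    have q1 : L ≤ Real.log (Real.log H) := (Real.log_le_sub_one_of_pos (by linarith)).trans (by linarith)
    have q2 : Real.log (Real.log H) ≤ Real.log H :=
      (Real.log_le_sub_one_of_pos (lt_of_lt_of_le (Real.exp_pos _) hl1)).trans (by linarith)
    linarith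
  have hL0 : 0 < L := by linarith
  have hw : L ^ (δ / 2) ≤ Real.log H := by
    refine le_trans ?_ hLH
    calc L ^ (δ / 2) ≤ L ^ (1 : ℝ) := Real.rpow_le_rpow_of_exponent_le k2 (by linarith)
      _ = L := Real.rpow_one L
  have hw1 : 1 ≤ L ^ (δ / 2) := Real.one_le_rpow k2 (by positivity)
  have hB1 : 1 ≤ L ^ (1 / 4 - δ) := Real.one_le_rpow k2 (by linarith)
  have hsub : {t : ℝ | U ≤ t ∧ t ≤ U + H ∧ ¬ ∀ s : ℝ, |s - t| ≤ L ^ (δ / 2) → ExW a (L ^ (1 / 4 - δ)) s} ⊆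
      Set.Icc (-(4 * Real.pi * (Real.log H + 1))) (4 * Real.pi * (Real.log H + 1)) ∪
      {t : ℝ | U ≤ t ∧ t ≤ U + H ∧ ∀ n : ℕ, 1 ≤ n → (n : ℝ) ≤ Real.log H →
        ‖Sw a t n‖ ≤ L ^ (1 / 4 - δ / 4) * Real.sqrt n} := by
    rintro t ⟨ht, htT, hnot⟩
    by_cases hsm : |t| ≤ 4 * Real.pi * (Real.log H + 1)
    · left
      exact Set.mem_Icc.2 (abs_le.1 hsm)
    · right
      push Not at hsm
      refine ⟨ht, htT, ?_⟩
      push Not at hnot
      obtain ⟨s, hst, hs⟩ := hnot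
      have hs1 : 2 * Real.pi * (Real.log H + 1) ≤ |s| := by
        have q1 : |t| - |s - t| ≤ |s| := by
          have := abs_sub_abs_le_abs_sub t s
          rw [abs_sub_comm] at this
          linarith
        have q2 : Real.log H ≤ 2 * Real.pi * (Real.log H + 1) := by nlinarith
        linarith
      have hs10 : 10 ≤ |s| := by
        refine le_trans ?_ hs1
        have q3 : (2 : ℝ) ≤ Real.log H := by
          refine le_trans ?_ hl1
          have := Real.add_one_le_exp (1 : ℝ)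
          linarith
        nlinarith
      have q5 : ∀ n : ℕ, 1 ≤ n → (n : ℝ) ≤ Real.log H →
          ‖Sw a s n‖ ≤ 2 * (3 * L ^ (1 / 4 - δ) + |C|) * Real.sqrt n := by
        intro n hn hnH
        refine core56 (by positivity) (hC s hs10) hs n hn ?_
        refine le_trans ?_ hs1
        apply mul_le_mul_of_nonneg_left _ (by positivity)
        linarith
      intro n hn hnH
      refine (cmpN a (t := t) q5 n hn hnH).trans ?_
      apply mul_le_mul_of_nonneg_right _ (Real.sqrt_nonneg _)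
      have q6 : 1 + 2 * |t - s| ≤ 3 * L ^ (δ / 2) := by
        rw [abs_sub_comm]
        linarith
      have q7 : 2 * (3 * L ^ (1 / 4 - δ) + |C|) ≤ 2 * (3 + |C|) * L ^ (1 / 4 - δ) := by
        nlinarith [abs_nonneg C]
      have q8 : 0 ≤ |C| := abs_nonneg C
      calc (1 + 2 * |t - s|) * (2 * (3 * L ^ (1 / 4 - δ) + |C|)) ≤
            (3 * L ^ (δ / 2)) * (2 * (3 + |C|) * L ^ (1 / 4 - δ)) :=
            mul_le_mul q6 q7 (by positivity) (by positivity)
        _ = 6 * (3 + |C|) * (L ^ (δ / 2) * L ^ (1 / 4 - δ)) := by ring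
        _ ≤ L ^ (δ / 4) * (L ^ (δ / 2) * L ^ (1 / 4 - δ)) := mul_le_mul_of_nonneg_right k3 (by positivity)
        _ = L ^ (1 / 4 - δ / 4) := by
            rw [← Real.rpow_add hL0, ← Real.rpow_add hL0]
            congr 1
            ring
  refine (measure_mono hsub).trans ((measure_union_le _ _).trans ((add_le_add le_rfl k1).trans ?_))
  have hlogH : 0 ≤ Real.log H := by linarith [Real.exp_pos 1]
  rw [Real.volume_Icc, ← ENNReal.ofReal_add (by nlinarith) (by positivity)]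
  apply ENNReal.ofReal_le_ofReal
  nlinarith

end Pool.Agent.IT
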