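import Pool.Agent.Helper56.IT.K1

/-!
# Project IT (MP_a499ba_nt), block K2: from the model to the imaginary twists, intervals at any height
-/

set_option autoImplicit false

namespace Pool.Agent.IT

open Finset MeasureTheory Filter Topology Pool.Agent.Helper5.RM Pool.Agent.Helper96.AF Pool.Agent.Helper66.LW

lemma continuous_Sw (a : ℕ → ℂ) (x : ℝ) : Continuous fun t : ℝ => Sw a t x := by
  unfold Sw
  refine continuous_finsetSum _ fun n hn => ?_
  have h1 : 1 ≤ n := (Finset.mem_Icc.1 hn).1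
  refine continuous_const.mul ?_
  have h2 : (fun t : ℝ => nit t n) = fun t : ℝ => Complex.exp (-(Complex.I * (t * Real.log n : ℝ))) := by
    funext t
    exact nit_eq h1 t
  rw [h2]
  fun_prop

lemma shift_int {St : Set ℝ} (hm : MeasurableSet St) {U T τ : ℝ} (h0 : 0 ≤ τ) (hT : 0 ≤ T) (hsub : St ⊆ Set.Icc U (U + T)) :
    volume.real St - τ ≤ ∫ t in U..(U + T), St.indicator (fun _ => (1 : ℝ)) (t + τ) := by
  rw [intervalIntegral.integral_comp_add_right (fun x => St.indicator (fun _ => (1 : ℝ)) x) τ,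
    intervalIntegral.integral_of_le (by linarith), integral_indicator hm, Measure.restrict_restrict hm, setIntegral_const,
    smul_eq_mul, mul_one]
  have h1 : St ⊆ (St ∩ Set.Ioc (U + τ) (U + T + τ)) ∪ Set.Icc U (U + τ) := by
    intro x hx
    have h2 := hsub hx
    by_cases h3 : U + τ < x
    · exact Or.inl ⟨hx, h3, by linarith [h2.2]⟩
    · exact Or.inr ⟨h2.1, not_lt.1 h3⟩
  have h4 : volume.real St ≤ volume.real (St ∩ Set.Ioc (U + τ) (U + T + τ)) + volume.real (Set.Icc U (U + τ)) := by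
    refine (measureReal_mono h1 ?_).trans (measureReal_union_le _ _)
    exact ((measure_union_le _ _).trans_lt (ENNReal.add_lt_top.2 ⟨(measure_mono Set.inter_subset_right).trans_lt (by simp), by simp⟩)).ne
  have h5 : volume.real (Set.Icc U (U + τ)) = τ := by
    rw [Real.volume_real_Icc]
    simp [h0]
  linarith

lemma av_intble (S : Finset ℕ) (a b : ℝ) (G : Finset ℕ → ℝ → ℝ) (hG : ∀ T, IntervalIntegrable (G T) volume a b) :
    IntervalIntegrable (fun t => av S (fun T => G T t)) volume a b := by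
  unfold av
  have h := IntervalIntegrable.sum S.powerset (f := G) fun T _ => hG T
  have h2 := h.div_const (2 ^ S.card)
  exact h2.congr (fun t _ => by simp [Finset.sum_apply])

lemma av_int (S : Finset ℕ) (a b : ℝ) (G : Finset ℕ → ℝ → ℝ) (hG : ∀ T, IntervalIntegrable (G T) volume a b) :
    av S (fun T => ∫ t in a..b, G T t) = ∫ t in a..b, av S (fun T => G T t) := by
  unfold av
  rw [intervalIntegral.integral_div, intervalIntegral.integral_finsetSum]
  intro T _
  exact hG T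

/-- the counting argument -/
theorem count {f : (ℕ → ℝ) → Finset ℕ → ℕ → ℂ} {a : ℕ → ℂ} (hfa : Close f a) {X : ℕ} {E L L' e' : ℝ} {r : ℕ}
    (hX1 : 1 ≤ X) (hXr : X = Y (r + 1)) (hLL : L + 1 ≤ L')
    (hsh : ∀ T1 T2 : Finset ℕ, ∃ τ : ℝ, 0 ≤ τ ∧ τ ≤ E ∧
      ∀ t : ℝ, ∀ p : ℕ, p.Prime → p ≤ X → ‖-nit (t + τ) p - fp (tt (fun p => -(t * Real.log p)) T2) T1 p‖ ≤ 1 / (X : ℝ) ^ 3)
    (hG : ∀ ph : ℕ → ℝ, av (PP (Y (r + 1))) (fun T2 => pr (PP (Y (r + 1))) (fun T1 => ∀ n ∈ Finset.Icc (Y r) (Y (r + 1)),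
      ‖Hc (f (tt ph T2) T1) n‖ ≤ L' * Real.sqrt n)) ≤ e') {U T : ℝ} (hT : 0 ≤ T) {St : Set ℝ} (hm : MeasurableSet St)
    (hsub : St ⊆ Set.Icc U (U + T)) (hSt : ∀ t ∈ St, ∀ n : ℕ, 1 ≤ n → n ≤ X → ‖Sw a t n‖ ≤ L * Real.sqrt n) :
    volume.real St ≤ e' * T + E := by
  classical
  choose τ hτ0 hτE hτ using hsh
  have hX : (1 : ℝ) ≤ X := by exact_mod_cast hX1
  -- pointwise
  have hpt : ∀ t : ℝ, av (PP X) (fun T2 => av (PP X) (fun T1 => St.indicator (fun _ => (1 : ℝ)) (t + τ T1 T2))) ≤ e' := by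
    intro t
    subst hXr
    refine le_trans (av_mono fun T2 _ => ?_) (hG (fun p => -(t * Real.log p)))
    unfold pr
    refine av_mono fun T1 _ => ?_
    by_cases hs : t + τ T1 T2 ∈ St
    · rw [Set.indicator_of_mem hs, if_pos]
      intro n hn
      obtain ⟨hn1, hn2⟩ := Finset.mem_Icc.1 hn
      have hn0 : 1 ≤ n := (Y_pos r).trans_le hn1
      have h1 := hSt _ hs n hn0 hn2
      have h2 : ‖Sw a (t + τ T1 T2) n - Hc (f (tt (fun p => -(t * Real.log p)) T2) T1) n‖ ≤ 1 := by
        unfold Sw Hc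
        rw [Nat.floor_natCast, ← Finset.sum_sub_distrib]
        refine (norm_sum_le _ _).trans ?_
        refine (Finset.sum_le_sum (g := fun _ => 1 / ((Y (r + 1) : ℕ) : ℝ) ^ 2) fun m hm => ?_).trans ?_
        · obtain ⟨hm1, hm2⟩ := Finset.mem_Icc.1 hm
          have hmX : m ≤ Y (r + 1) := hm2.trans hn2
          refine (hfa _ _ _ (1 / ((Y (r + 1) : ℕ) : ℝ) ^ 3) m (by positivity) hm1 fun p hp => ?_).trans ?_
          · exact hτ T1 T2 t p (Nat.prime_of_mem_primeFactors hp) ((Nat.le_of_dvd (by omega) (Nat.dvd_of_mem_primeFactors hp)).trans hmX)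
          · have h3 : (m : ℝ) ≤ ((Y (r + 1) : ℕ) : ℝ) := by exact_mod_cast hmX
            calc (m : ℝ) * (1 / ((Y (r + 1) : ℕ) : ℝ) ^ 3) ≤ ((Y (r + 1) : ℕ) : ℝ) * (1 / ((Y (r + 1) : ℕ) : ℝ) ^ 3) := by gcongr
              _ = 1 / ((Y (r + 1) : ℕ) : ℝ) ^ 2 := by field_simp
        · rw [Finset.sum_const, nsmul_eq_mul, Nat.card_Icc, Nat.add_sub_cancel]
          have h3 : (n : ℝ) ≤ ((Y (r + 1) : ℕ) : ℝ) := by exact_mod_cast hn2
          calc (n : ℝ) * (1 / ((Y (r + 1) : ℕ) : ℝ) ^ 2) ≤ ((Y (r + 1) : ℕ) : ℝ) * (1 / ((Y (r + 1) : ℕ) : ℝ) ^ 2) := by gcongr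
            _ = 1 / ((Y (r + 1) : ℕ) : ℝ) := by field_simp
            _ ≤ 1 := by rw [div_le_one (by linarith)]; exact hX
      have h3 : 1 ≤ Real.sqrt n := by
        rw [Real.one_le_sqrt]
        exact_mod_cast hn0
      have h4 := norm_sub_norm_le (Hc (f (tt (fun p => -(t * Real.log p)) T2) T1) n) (Sw a (t + τ T1 T2) n)
      rw [norm_sub_rev] at h4
      calc ‖Hc (f (tt (fun p => -(t * Real.log p)) T2) T1) n‖ ≤ L * Real.sqrt n + 1 * Real.sqrt n := by linarith
        _ = (L + 1) * Real.sqrt n := by ring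
        _ ≤ L' * Real.sqrt n := by gcongr
    · rw [Set.indicator_of_notMem hs]
      split_ifs <;> norm_num
  -- integrate
  have hmi : ∀ s : ℝ, IntervalIntegrable (fun t => St.indicator (fun _ => (1 : ℝ)) (t + s)) volume U (U + T) := by
    intro s
    have h1 : Measurable fun t : ℝ => St.indicator (fun _ => (1 : ℝ)) (t + s) :=
      (measurable_const.indicator hm).comp (measurable_id.add_const s)
    refine (intervalIntegrable_const (c := (1 : ℝ))).mono_fun h1.aestronglyMeasurable (Filter.Eventually.of_forall fun t => ?_)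
    simp only [Real.norm_eq_abs, norm_one]
    unfold Set.indicator
    split_ifs <;> simp
  have h1 : ∫ t in U..(U + T), av (PP X) (fun T2 => av (PP X) (fun T1 => St.indicator (fun _ => (1 : ℝ)) (t + τ T1 T2))) ≤ e' * T := by
    have h2 : ∫ t in U..(U + T), av (PP X) (fun T2 => av (PP X) (fun T1 => St.indicator (fun _ => (1 : ℝ)) (t + τ T1 T2))) ≤
        ∫ _ in U..(U + T), e' := by
      refine intervalIntegral.integral_mono_on (by linarith) ?_ intervalIntegrable_const fun t _ => hpt t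
      exact av_intble _ _ _ _ fun T2 => av_intble _ _ _ _ fun T1 => hmi _
    rw [intervalIntegral.integral_const, smul_eq_mul, add_sub_cancel_left, mul_comm] at h2
    exact h2
  have h2 : av (PP X) (fun T2 => av (PP X) (fun T1 => ∫ t in U..(U + T), St.indicator (fun _ => (1 : ℝ)) (t + τ T1 T2))) =
      ∫ t in U..(U + T), av (PP X) (fun T2 => av (PP X) (fun T1 => St.indicator (fun _ => (1 : ℝ)) (t + τ T1 T2))) := by
    rw [← av_int]
    · refine av_congr fun T2 _ => ?_
      rw [av_int]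
      exact fun T1 => hmi _
    · intro T2
      exact av_intble _ _ _ _ fun T1 => hmi _
  have h3 : volume.real St - E ≤ av (PP X) (fun T2 => av (PP X) (fun T1 => ∫ t in U..(U + T), St.indicator (fun _ => (1 : ℝ)) (t + τ T1 T2))) := by
    calc volume.real St - E = av (PP X) (fun _ => av (PP X) (fun _ => volume.real St - E)) := by rw [av_const, av_const]
      _ ≤ _ := av_mono fun T2 _ => av_mono fun T1 _ => by
          have := shift_int hm (hτ0 T1 T2) hT hsub
          linarith [hτE T1 T2]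
  linarith [h2 ▸ h3]

end Pool.Agent.IT
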