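import Pool.Agent.Helper56.IT.Stmts

/-!
# Project IT (MP_a499ba_nt). Statements, second part: all directions at once
-/

set_option autoImplicit false

namespace Pool.Agent.IT

open Finset MeasureTheory Filter Topology Pool.Agent.Helper5.RM Pool.Agent.Helper96.AF Pool.Agent.Helper66.LW

/-- the model, all directions at once -/
def StmtGA (f : (ℕ → ℝ) → Finset ℕ → ℕ → ℂ) : Prop := ∀ (δ η : ℝ), 0 < δ → 0 < η → ∃ r0 : ℕ, ∀ r : ℕ, r0 ≤ r → ∀ ph : ℕ → ℝ,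
  av (PP (Y (r + 1))) (fun T2 => pr (PP (Y (r + 1))) (fun T1 => ∃ φ : ℝ, ∀ n ∈ Finset.Icc (Y r) (Y (r + 1)),
    (Complex.exp (Complex.I * φ) * Hc (f (tt ph T2) T1) n).re ≤ (r : ℝ) ^ (1 / 4 - δ) * Real.sqrt n)) ≤ η

/-- block K, all directions at once, uniformly in the height -/
def StmtKA (a : ℕ → ℂ) : Prop := ∀ (δ η : ℝ), 0 < δ → 0 < η → ∃ H0 : ℝ, ∀ H : ℝ, H0 ≤ H → ∀ U : ℝ,
  volume {t : ℝ | U ≤ t ∧ t ≤ U + H ∧ ∃ φ : ℝ, ∀ n : ℕ, 1 ≤ n → (n : ℝ) ≤ Real.log H →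
    (Complex.exp (Complex.I * φ) * Sw a t n).re ≤ Real.log (Real.log (Real.log H)) ^ (1 / 4 - δ) * Real.sqrt n} ≤ ENNReal.ofReal (η * H)

/-- boundedness of the untwisted sums -/
def StmtB0 (a : ℕ → ℂ) : Prop := ∃ K : ℝ, ∀ x : ℝ, 1 ≤ x → ‖Sw a 0 x‖ ≤ K * Real.sqrt x

/-- recurrence at `t`, all directions at once: if the sums stay below `B √x` in one direction from `x0` on, then they stay below
`(3 B + C) √n` in some direction from the beginning -/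
def RecA (a : ℕ → ℂ) (C t : ℝ) : Prop := ∀ φ B x0 : ℝ, 0 ≤ B →
  (∀ x : ℝ, x0 ≤ x → (Complex.exp (Complex.I * φ) * Sw a t x).re ≤ B * Real.sqrt x) →
  ∃ ψ : ℝ, ∀ n : ℕ, 1 ≤ n → (Complex.exp (Complex.I * ψ) * Sw a t n).re ≤ (3 * B + C) * Real.sqrt n

/-- the recurrence block, all directions, every `t` outside a set of small proportion in every interval of length `H` -/
def StmtHA (a : ℕ → ℂ) : Prop := StmtB0 a → ∃ C : ℝ, ∀ η : ℝ, 0 < η → ∃ H0 : ℝ, ∀ H : ℝ, H0 ≤ H → ∀ U : ℝ,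
  volume {t : ℝ | U ≤ t ∧ t ≤ U + H ∧ ¬ RecA a C t} ≤ ENNReal.ofReal (η * H)

/-- the final theorem, all directions: for all `t` in `[U, U + H]` outside a set of measure `≤ η H`, for every `φ`,
`Re (e^{iφ} ∑_{n ≤ x} a(n) n^{-it}) > (log log log H)^{1/4-δ} √x` for arbitrarily large `x` -/
def StmtFA (a : ℕ → ℂ) : Prop := ∀ (δ η : ℝ), 0 < δ → 0 < η → ∃ H0 : ℝ, ∀ H : ℝ, H0 ≤ H → ∀ U : ℝ,
  volume {t : ℝ | U ≤ t ∧ t ≤ U + H ∧ ¬ ∀ φ x0 : ℝ, ∃ x : ℝ, x0 ≤ x ∧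
    Real.log (Real.log (Real.log H)) ^ (1 / 4 - δ) * Real.sqrt x < (Complex.exp (Complex.I * φ) * Sw a t x).re} ≤ ENNReal.ofReal (η * H)

end Pool.Agent.IT
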