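import Pool.Agent.Helper56.IT.K2
import Pool.Agent.Helper56.IT.Stmts2

/-!
# Project IT (MP_a499ba_nt), block K2: the counting argument, all directions at once
-/

set_option autoImplicit false

namespace Pool.Agent.IT

open Finset MeasureTheory Filter Topology Pool.Agent.Helper5.RM Pool.Agent.Helper96.AF Pool.Agent.Helper66.LW

/-- the counting argument, all directions at once -/
theorem countA {f : (ℕ → ℝ) → Finset ℕ → ℕ → ℂ} {a : ℕ → ℂ} (hfa : Close f a) {X : ℕ} {E L L' e' : ℝ} {r : ℕ}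
    (hX1 : 1 ≤ X) (hXr : X = Y (r + 1)) (hLL : L + 1 ≤ L')
    (hsh : ∀ T1 T2 : Finset ℕ, ∃ τ : ℝ, 0 ≤ τ ∧ τ ≤ E ∧
      ∀ t : ℝ, ∀ p : ℕ, p.Prime → p ≤ X → ‖-nit (t + τ) p - fp (tt (fun p => -(t * Real.log p)) T2) T1 p‖ ≤ 1 / (X : ℝ) ^ 3)
    (hG : ∀ ph : ℕ → ℝ, av (PP (Y (r + 1))) (fun T2 => pr (PP (Y (r + 1))) (fun T1 => ∃ φ : ℝ, ∀ n ∈ Finset.Icc (Y r) (Y (r + 1)),
      (Complex.exp (Complex.I * φ) * Hc (f (tt ph T2) T1) n).re ≤ L' * Real.sqrt n)) ≤ e') {U T : ℝ} (hT : 0 ≤ T) {St : Set ℝ} (hm : MeasurableSet St)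
    (hsub : St ⊆ Set.Icc U (U + T)) (hSt : ∀ t ∈ St, ∃ φ : ℝ, ∀ n : ℕ, 1 ≤ n → n ≤ X → (Complex.exp (Complex.I * φ) * Sw a t n).re ≤ L * Real.sqrt n) :
    volume.real St ≤ e' * T + E := by
  classical
  choose τ hτ0 hτE hτ using hsh
  have hX : (1 : ℝ) ≤ X := by exact_mod_cast hX1
  -- pointwise
  have hpt : ∀ t : ℝ, av (PP X) (fun T2 => av (PP X) (fun T1 => St.indicator (fun _ => (1 : ℝ)) (t + τ T1 T2))) ≤ e' := by
    intro t
    subst hXr
    refine le_trans (av_mono fun T2 _ => ?_) (hG (fun p => -(t * Real.log p)))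
    unfold pr
    refine av_mono fun T1 _ => ?_
    by_cases hs : t + τ T1 T2 ∈ St
    · rw [Set.indicator_of_mem hs, if_pos]
      obtain ⟨φ, hφ⟩ := hSt _ hs
      refine ⟨φ, fun n hn => ?_⟩
      obtain ⟨hn1, hn2⟩ := Finset.mem_Icc.1 hn
      have hn0 : 1 ≤ n := (Y_pos r).trans_le hn1
      have h1 := hφ n hn0 hn2
      have h2 : ‖Sw a (t + τ T1 T2) n - Hc (f (tt (fun p => -(t * Real.log p)) T2) T1) n‖ ≤ 1 := by
        unfold Sw Hc
        rw [Nat.floor_natCast, ← Finset.sum_sub_distrib]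
        refine (norm_sum_le _ _).trans ?_
        refine (Finset.sum_le_sum (g := fun _ => 1 / ((Y (r + 1) : ℕ) : ℝ) ^ 2) fun m hm => ?_).trans ?_
        · obtain ⟨hm1, hm2⟩ := Finset.mem_Icc.1 hm
          have hmX : m ≤ Y (r + 1) := hm2.trans hn2
          refine (hfa _ _ _ (1 / ((Y (r + 1) : ℕ) : ℝ) ^ 3) m (by positivity) hm1 fun p hp => ?_).trans ?_
          · exact hτ T1 T2 t p (Nat.prime_of_mem_primeFactors hp) ((Nat.le_of_dvd (by omega) (Nat.dvd_of_mem_primeFactors hp)).trans hmX)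
          · have h3 : (m : ℝ) ≤ ((Y (r + 1) : ℕ) : ℝ) := by exact_mod_cast hmX
            calc (m : ℝ) * (1 / ((Y (r + 1) : ℕ) : ℝ) ^ 3) ≤ ((Y (r + 1) : ℕ) : ℝ) * (1 / ((Y (r + 1) : ℕ) : ℝ) ^ 3) := by gcongr
              _ = 1 / ((Y (r + 1) : ℕ) : ℝ) ^ 2 := by field_simp
        · rw [Finset.sum_const, nsmul_eq_mul, Nat.card_Icc, Nat.add_sub_cancel]
          have h3 : (n : ℝ) ≤ ((Y (r + 1) : ℕ) : ℝ) := by exact_mod_cast hn2
          calc (n : ℝ) * (1 / ((Y (r + 1) : ℕ) : ℝ) ^ 2) ≤ ((Y (r + 1) : ℕ) : ℝ) * (1 / ((Y (r + 1) : ℕ) : ℝ) ^ 2) := by gcongr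
            _ = 1 / ((Y (r + 1) : ℕ) : ℝ) := by field_simp
            _ ≤ 1 := by rw [div_le_one (by linarith)]; exact hX
      have h3 : 1 ≤ Real.sqrt n := by
        rw [Real.one_le_sqrt]
        exact_mod_cast hn0
      have h4 : (Complex.exp (Complex.I * φ) * Hc (f (tt (fun p => -(t * Real.log p)) T2) T1) n).re ≤
          (Complex.exp (Complex.I * φ) * Sw a (t + τ T1 T2) n).re + 1 := by
        have h5 : Complex.exp (Complex.I * φ) * Hc (f (tt (fun p => -(t * Real.log p)) T2) T1) n =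
            Complex.exp (Complex.I * φ) * Sw a (t + τ T1 T2) n -
              Complex.exp (Complex.I * φ) * (Sw a (t + τ T1 T2) n - Hc (f (tt (fun p => -(t * Real.log p)) T2) T1) n) := by ring
        rw [h5, Complex.sub_re]
        have h6 : ‖Complex.exp (Complex.I * φ) * (Sw a (t + τ T1 T2) n - Hc (f (tt (fun p => -(t * Real.log p)) T2) T1) n)‖ ≤ 1 := by
          rw [norm_mul, mul_comm Complex.I, Complex.norm_exp_ofReal_mul_I, one_mul]
          exact h2
        have h7 := (abs_le.1 ((Complex.abs_re_le_norm _).trans h6)).1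
        linarith
      calc (Complex.exp (Complex.I * φ) * Hc (f (tt (fun p => -(t * Real.log p)) T2) T1) n).re ≤ L * Real.sqrt n + 1 * Real.sqrt n := by
            linarith
        _ = (L + 1) * Real.sqrt n := by ring
        _ ≤ L' * Real.sqrt n := by gcongr
    · rw [Set.indicator_of_notMem hs]
      split_ifs <;> norm_num
  -- integrate
  have hmi : ∀ s : ℝ, IntervalIntegrable (fun t => St.indicator (fun _ => (1 : ℝ)) (t + s)) volume U (U + T) := by
    intro s
    have h1 : Measurable fun t : ℝ => St.indicator (fun _ => (1 : ℝ)) (t + s) :=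
      (measurable_const.indicator hm).comp (measurable_id.add_const s)
    refine (intervalIntegrable_const (c := (1 : ℝ))).mono_fun h1.aestronglyMeasurable (Filter.Eventually.of_forall fun t => ?_)
    simp only [Real.norm_eq_abs, norm_one]
    unfold Set.indicator
    split_ifs <;> simp
  have h1 : ∫ t in U..(U + T), av (PP X) (fun T2 => av (PP X) (fun T1 => St.indicator (fun _ => (1 : ℝ)) (t + τ T1 T2))) ≤ e' * T := by
    have h2 : ∫ t in U..(U + T), av (PP X) (fun T2 => av (PP X) (fun T1 => St.indicator (fun _ => (1 : ℝ)) (t + τ T1 T2))) ≤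
        ∫ _ in U..(U + T), e' := by
      refine intervalIntegral.integral_mono_on (by linarith) ?_ intervalIntegrable_const fun t _ => hpt t
      exact av_intble _ _ _ _ fun T2 => av_intble _ _ _ _ fun T1 => hmi _
    rw [intervalIntegral.integral_const, smul_eq_mul, add_sub_cancel_left, mul_comm] at h2
    exact h2
  have h2 : av (PP X) (fun T2 => av (PP X) (fun T1 => ∫ t in U..(U + T), St.indicator (fun _ => (1 : ℝ)) (t + τ T1 T2))) =
      ∫ t in U..(U + T), av (PP X) (fun T2 => av (PP X) (fun T1 => St.indicator (fun _ => (1 : ℝ)) (t + τ T1 T2))) := by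
    rw [← av_int]
    · refine av_congr fun T2 _ => ?_
      rw [av_int]
      exact fun T1 => hmi _
    · intro T2
      exact av_intble _ _ _ _ fun T1 => hmi _
  have h3 : volume.real St - E ≤ av (PP X) (fun T2 => av (PP X) (fun T1 => ∫ t in U..(U + T), St.indicator (fun _ => (1 : ℝ)) (t + τ T1 T2))) := by
    calc volume.real St - E = av (PP X) (fun _ => av (PP X) (fun _ => volume.real St - E)) := by rw [av_const, av_const]
      _ ≤ _ := av_mono fun T2 _ => av_mono fun T1 _ => by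
          have := shift_int hm (hτ0 T1 T2) hT hsub
          linarith [hτE T1 T2]
  linarith [h2 ▸ h3]

end Pool.Agent.IT
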