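import Pool.Agent.Helper56.IT.K2A

/-!
# Project IT (MP_a499ba_nt), block K: from the model to the imaginary twists (all directions), the parameters
-/

set_option autoImplicit false

namespace Pool.Agent.IT

open Finset MeasureTheory Filter Topology Pool.Agent.Helper5.RM Pool.Agent.Helper96.AF Pool.Agent.Helper66.LW

private lemma ev_pow (m : ℝ) (hm : 0 < m) : ∃ R : ℕ, ∀ r : ℕ, R ≤ r → 2 ≤ (r : ℝ) ^ m := by
  have h := (tendsto_rpow_atTop hm).comp tendsto_natCast_atTop_atTop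
  obtain ⟨R, hR⟩ := Filter.eventually_atTop.1 (h.eventually_ge_atTop 2)
  exact ⟨R, fun r hr => hR r hr⟩

private lemma Y_cast (r : ℕ) : ((Y r : ℕ) : ℝ) = Real.exp (2 ^ r * Real.log 2) := by
  unfold Y
  push_cast
  rw [show (2 : ℝ) ^ r * Real.log 2 = ((2 ^ r : ℕ) : ℝ) * Real.log 2 by push_cast; ring, ← Real.log_pow,
    Real.exp_log (by positivity)]

private lemma lt_Y (r : ℕ) : r < Y r := by
  unfold Y
  exact (Nat.lt_two_pow_self (n := r)).trans (Nat.lt_two_pow_self (n := 2 ^ r))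

/-- the size of the shifts -/
private lemma shift_size {η T : ℝ} (hη : 0 < η) (hT : 0 < T) {r : ℕ} {l : ℝ} (hl : l = Real.log (Real.log (Real.log T))) (hl90 : 90 ≤ l)
    (hr : (r : ℝ) ≤ l + 1) (hrη : 2 / η ≤ r) (hT1 : 0 < Real.log T) (hT2 : 0 < Real.log (Real.log T)) :
    Real.exp (((Y (r + 1) : ℕ) : ℝ) ^ 9) ≤ η / 2 * T ∧ ((Y (r + 1) : ℕ) : ℝ) ≤ Real.log T := by
  have hlog2 := Real.log_two_lt_d9
  have hlog2' := Real.log_two_gt_d9
  set X : ℝ := ((Y (r + 1) : ℕ) : ℝ) with hX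
  have hX2 : (2 : ℝ) ≤ X := by
    rw [hX]
    have : 2 ≤ Y (r + 1) := by
      unfold Y
      calc 2 = 2 ^ 1 := rfl
        _ ≤ 2 ^ 2 ^ (r + 1) := Nat.pow_le_pow_right (by norm_num) (Nat.one_le_two_pow)
    exact_mod_cast this
  have hXr : (r : ℝ) ≤ X := by
    have := lt_Y (r + 1)
    have h2 : ((r + 1 : ℕ) : ℝ) < ((Y (r + 1) : ℕ) : ℝ) := by exact_mod_cast this
    push_cast at h2
    linarith
  have h1 : X ^ 10 ≤ Real.log T := by
    have e1 : X ^ 10 = Real.exp (10 * (2 ^ (r + 1) * Real.log 2)) := by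
      rw [hX, Y_cast, ← Real.exp_nat_mul]
      norm_num
    have e2 : (2 : ℝ) ^ (r + 1) ≤ 4 * Real.exp (l * Real.log 2) := by
      have e3 : (2 : ℝ) ^ (r + 1) = Real.exp ((r + 1) * Real.log 2) := by
        rw [show ((r : ℝ) + 1) * Real.log 2 = ((r + 1 : ℕ) : ℝ) * Real.log 2 by push_cast; ring, ← Real.log_pow, Real.exp_log (by positivity)]
      have e4 : (4 : ℝ) = Real.exp (2 * Real.log 2) := by
        rw [show (2 : ℝ) * Real.log 2 = ((2 : ℕ) : ℝ) * Real.log 2 by norm_num, ← Real.log_pow, Real.exp_log (by positivity)]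
        norm_num
      rw [e3, e4, ← Real.exp_add]
      apply Real.exp_le_exp.2
      nlinarith
    have e5 : 10 * (2 ^ (r + 1) * Real.log 2) ≤ Real.log (Real.log T) := by
      have e6 : Real.log (Real.log T) = Real.exp l := by rw [hl, Real.exp_log hT2]
      rw [e6]
      have e7 : Real.exp (l * Real.log 2) ≤ Real.exp (l * (7 / 10)) := by
        apply Real.exp_le_exp.2
        nlinarith
      have e8 : 28 ≤ Real.exp (l * (3 / 10)) := by
        have := Real.add_one_le_exp (l * (3 / 10))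
        linarith
      have e9 : Real.exp l = Real.exp (l * (7 / 10)) * Real.exp (l * (3 / 10)) := by
        rw [← Real.exp_add]
        congr 1
        ring
      have e10 : 0 < Real.exp (l * (7 / 10)) := Real.exp_pos _
      calc 10 * (2 ^ (r + 1) * Real.log 2) ≤ 10 * (4 * Real.exp (l * Real.log 2) * Real.log 2) := by gcongr
        _ = 40 * Real.log 2 * Real.exp (l * Real.log 2) := by ring
        _ ≤ 28 * Real.exp (l * Real.log 2) := mul_le_mul_of_nonneg_right (by linarith) (Real.exp_pos _).le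
        _ ≤ 28 * Real.exp (l * (7 / 10)) := by gcongr
        _ ≤ Real.exp (l * (3 / 10)) * Real.exp (l * (7 / 10)) := mul_le_mul_of_nonneg_right e8 e10.le
        _ = Real.exp l := by rw [e9, mul_comm]
    rw [e1, ← Real.le_log_iff_exp_le hT1]
    exact e5
  have h2 : Real.exp (X ^ 10) ≤ T := by
    rw [← Real.le_log_iff_exp_le hT]
    exact h1
  have h3 : X ^ 9 + X ≤ X ^ 10 := by
    have h4 : X ≤ X ^ 9 := le_self_pow₀ (by linarith) (by norm_num)
    have h5 : X ^ 10 = X ^ 9 * X := by ring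
    have h6 : X ^ 9 * 2 ≤ X ^ 9 * X := mul_le_mul_of_nonneg_left hX2 (by positivity)
    linarith
  have h4 : Real.exp (X ^ 9) * Real.exp X ≤ T := by
    rw [← Real.exp_add]
    exact (Real.exp_le_exp.2 h3).trans h2
  have h5 : 2 / η ≤ Real.exp X := by
    have := Real.add_one_le_exp X
    linarith
  have h6 : Real.exp (X ^ 9) * (2 / η) ≤ T := (mul_le_mul_of_nonneg_left h5 (Real.exp_pos _).le).trans h4
  refine ⟨?_, (le_self_pow₀ (by linarith) (by norm_num)).trans h1⟩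
  calc Real.exp (X ^ 9) = η / 2 * (Real.exp (X ^ 9) * (2 / η)) := by field_simp
    _ ≤ η / 2 * T := by gcongr

theorem stmtKA_of {f : (ℕ → ℝ) → Finset ℕ → ℕ → ℂ} {a : ℕ → ℂ} (hfa : Close f a) (hG : StmtGA f) : StmtKA a := by
  intro δ η hδ hη
  set m : ℝ := min δ (1 / 8) with hm
  have hm0 : 0 < m := lt_min hδ (by norm_num)
  have hm8 : m ≤ 1 / 8 := min_le_right _ _
  have hmδ : m ≤ δ := min_le_left _ _
  obtain ⟨r1, h1⟩ := hG (m / 2) (η / 2) (by positivity) (by positivity)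
  obtain ⟨r2, h2⟩ := ev_pow (m / 2) (by positivity)
  obtain ⟨X0, h3⟩ := shift_exists
  obtain ⟨r4, h4⟩ := exists_nat_ge (2 / η)
  set R : ℕ := r1 + r2 + X0 + r4 + 90 with hR
  refine ⟨Real.exp (Real.exp (Real.exp R)), fun T hT U => ?_⟩
  have hT0 : 0 < T := (Real.exp_pos _).trans_le hT
  have hT1 : Real.exp (Real.exp R) ≤ Real.log T := (Real.le_log_iff_exp_le hT0).2 hT
  have hT10 : 0 < Real.log T := (Real.exp_pos _).trans_le hT1
  have hT2 : Real.exp R ≤ Real.log (Real.log T) := (Real.le_log_iff_exp_le hT10).2 hT1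
  have hT20 : 0 < Real.log (Real.log T) := (Real.exp_pos _).trans_le hT2
  have hT3 : (R : ℝ) ≤ Real.log (Real.log (Real.log T)) := (Real.le_log_iff_exp_le hT20).2 hT2
  set l : ℝ := Real.log (Real.log (Real.log T)) with hl
  have hR90 : (90 : ℝ) ≤ R := by rw [hR]; exact_mod_cast (by omega : 90 ≤ r1 + r2 + X0 + r4 + 90)
  have hl90 : 90 ≤ l := by linarith
  set r : ℕ := ⌈l⌉₊ with hr
  have hlr : l ≤ r := Nat.le_ceil l
  have hrl : (r : ℝ) ≤ l + 1 := (Nat.ceil_lt_add_one (by linarith)).le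
  have hRr : R ≤ r := by exact_mod_cast hT3.trans hlr
  have hr90 : (90 : ℝ) ≤ r := by linarith
  have hrη : 2 / η ≤ r := by
    refine h4.trans ?_
    exact_mod_cast (by omega : r4 ≤ r)
  have hXX : X0 ≤ Y (r + 1) := by
    have := lt_Y (r + 1)
    omega
  obtain ⟨hE, hXlog⟩ := shift_size hη hT0 hl hl90 hrl hrη hT10 hT20
  have hLL : l ^ (1 / 4 - δ) + 1 ≤ (r : ℝ) ^ (1 / 4 - m / 2) := by
    have e1 : l ^ (1 / 4 - δ) ≤ l ^ (1 / 4 - m) := Real.rpow_le_rpow_of_exponent_le (by linarith) (by linarith)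
    have e2 : l ^ (1 / 4 - m) ≤ (r : ℝ) ^ (1 / 4 - m) := Real.rpow_le_rpow (by linarith) hlr (by linarith)
    have e3 : 1 ≤ (r : ℝ) ^ (1 / 4 - m) := Real.one_le_rpow (by linarith) (by linarith)
    have e4 : (r : ℝ) ^ (1 / 4 - m / 2) = (r : ℝ) ^ (m / 2) * (r : ℝ) ^ (1 / 4 - m) := by
      rw [← Real.rpow_add (by linarith)]
      congr 1
      ring
    have e5 := h2 r (by omega)
    rw [e4]
    nlinarith
  set St : Set ℝ := {t : ℝ | U ≤ t ∧ t ≤ U + T ∧ ∃ φ : ℝ, ∀ n : ℕ, 1 ≤ n → (n : ℝ) ≤ Real.log T →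
    (Complex.exp (Complex.I * φ) * Sw a t n).re ≤ l ^ (1 / 4 - δ) * Real.sqrt n} with hSt
  have hcl : IsClosed St := by
    set Q : Set (ℝ × ℝ) := (Set.Icc U (U + T) ×ˢ Set.Icc 0 (2 * Real.pi)) ∩ ⋂ n : ℕ, ⋂ _ : 1 ≤ n, ⋂ _ : (n : ℝ) ≤ Real.log T,
        {q : ℝ × ℝ | (Complex.exp (Complex.I * q.2) * Sw a q.1 n).re ≤ l ^ (1 / 4 - δ) * Real.sqrt n} with hQ
    have hQc : IsCompact Q := by
      refine (isCompact_Icc.prod isCompact_Icc).inter_right (isClosed_iInter fun n => isClosed_iInter fun _ => isClosed_iInter fun _ => ?_)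
      refine isClosed_le (Complex.continuous_re.comp ?_) continuous_const
      exact (by fun_prop : Continuous fun q : ℝ × ℝ => Complex.exp (Complex.I * q.2)).mul ((continuous_Sw a n).comp continuous_fst)
    have e1 : St = Prod.fst '' Q := by
      ext t
      constructor
      · rintro ⟨h1, h2, φ, hφ⟩
        obtain ⟨ψ, hψ, hψ2⟩ : ∃ ψ ∈ Set.Ico (0 : ℝ) (0 + 2 * Real.pi), ∃ k : ℤ, ψ = φ - k * (2 * Real.pi) := by
          refine ⟨toIcoMod Real.two_pi_pos 0 φ, toIcoMod_mem_Ico _ _ _, toIcoDiv Real.two_pi_pos 0 φ, ?_⟩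
          have := toIcoMod_add_toIcoDiv_zsmul Real.two_pi_pos 0 φ
          rw [zsmul_eq_mul] at this
          linarith
        obtain ⟨k, hk⟩ := hψ2
        refine ⟨(t, ψ), ⟨⟨⟨h1, h2⟩, hψ.1, by linarith [hψ.2]⟩, ?_⟩, rfl⟩
        simp only [Set.mem_iInter, Set.mem_ofPred_eq]
        intro n hn hn2
        have h3 := hφ n hn hn2
        have h4 : Complex.exp (Complex.I * ψ) = Complex.exp (Complex.I * φ) := by
          rw [hk, Complex.exp_eq_exp_iff_exists_int]
          refine ⟨-k, ?_⟩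
          push_cast
          ring
        rw [h4]
        exact h3
      · rintro ⟨⟨t', ψ⟩, ⟨⟨⟨h1, h2⟩, h3, h4⟩, h5⟩, rfl⟩
        simp only [Set.mem_iInter, Set.mem_ofPred_eq] at h5
        exact ⟨h1, h2, ψ, fun n hn hn2 => h5 n hn hn2⟩
    rw [e1]
    exact (hQc.image continuous_fst).isClosed
  have hsub : St ⊆ Set.Icc U (U + T) := fun t ht => ⟨ht.1, ht.2.1⟩
  have hc := countA hfa (X := Y (r + 1)) (E := Real.exp (((Y (r + 1) : ℕ) : ℝ) ^ 9)) (L := l ^ (1 / 4 - δ)) (L' := (r : ℝ) ^ (1 / 4 - m / 2))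
    (e' := η / 2) (r := r) (Y_pos _) rfl hLL (h3 (Y (r + 1)) hXX) (h1 r (by omega)) hT0.le hcl.measurableSet hsub
    (fun t ht => by
      obtain ⟨φ, hφ⟩ := ht.2.2
      exact ⟨φ, fun n hn hnX => hφ n hn (le_trans (by exact_mod_cast hnX) hXlog)⟩)
  have hfin : volume St ≠ ⊤ := ((measure_mono hsub).trans_lt (by simp)).ne
  rw [← ENNReal.ofReal_toReal hfin]
  apply ENNReal.ofReal_le_ofReal
  have : volume.real St ≤ η * T := by linarith
  exact this

theorem stmtKA_M (hG : StmtGA fM) : StmtKA muc := stmtKA_of close_M hG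

theorem stmtKA_L (hG : StmtGA fL) : StmtKA lac := stmtKA_of close_L hG

end Pool.Agent.IT
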