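import Pool.Agent.Helper55.IT.FinDir

/-!
# Project IT (MP_a499ba_nt), the final form with real cosine sums
-/

set_option autoImplicit false

namespace Pool.Agent.IT

open Finset MeasureTheory Filter Topology

/-- `∑_{n ≤ x} a(n) cos(t log(x/n) + φ)` -/
noncomputable def cosSum (a : ℕ → ℤ) (t φ x : ℝ) : ℝ :=
  ∑ n ∈ Finset.Icc 1 ⌊x⌋₊, (a n : ℝ) * Real.cos (t * Real.log (x / n) + φ)

/-- the Liouville function -/
def liou (n : ℕ) : ℤ := (-1) ^ ArithmeticFunction.cardFactors n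

theorem cosSum_eq {a : ℕ → ℤ} {b : ℕ → ℂ} (hab : ∀ n : ℕ, 1 ≤ n → b n = (a n : ℂ)) (t φ x : ℝ) :
    (Complex.exp (Complex.I * φ) * mt b t x).re = cosSum a t φ x := by
  unfold mt cosSum
  rw [Finset.mul_sum, Complex.re_sum]
  refine Finset.sum_congr rfl fun n hn => ?_
  obtain ⟨hn1, hn2⟩ := Finset.mem_Icc.1 hn
  have hx : 1 ≤ ⌊x⌋₊ := hn1.trans hn2
  have hx0 : (0 : ℝ) < x := by
    by_contra h
    rw [Nat.floor_of_nonpos (not_lt.1 h)] at hx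
    omega
  have hn0 : (0 : ℝ) < n := by exact_mod_cast (by omega : 0 < n)
  rw [hab n hn1, Real.log_div hx0.ne' hn0.ne', mul_left_comm, ← Complex.exp_add]
  have e1 : Complex.I * (φ : ℂ) + Complex.I * ((t * (Real.log x - Real.log n) : ℝ) : ℂ) =
      ((t * (Real.log x - Real.log n) + φ : ℝ) : ℂ) * Complex.I := by
    push_cast
    ring
  rw [e1, show ((a n : ℤ) : ℂ) = (((a n : ℤ) : ℝ) : ℂ) by push_cast; rfl, Complex.re_ofReal_mul, Complex.exp_ofReal_mul_I_re]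

theorem final_of {a : ℕ → ℤ} {b : ℕ → ℂ} (hab : ∀ n : ℕ, 1 ≤ n → b n = (a n : ℂ)) (h : StmtDir b) (δ η : ℝ) (hδ : 0 < δ) (hη : 0 < η) :
    ∃ H0 : ℝ, ∀ H : ℝ, H0 ≤ H → ∀ U : ℝ, volume {t : ℝ | U ≤ t ∧ t ≤ U + H ∧ ¬ ∀ φ x0 : ℝ, ∃ x : ℝ, x0 ≤ x ∧
      Real.log (Real.log (Real.log H)) ^ (1 / 4 - δ) * Real.sqrt x < cosSum a t φ x} ≤ ENNReal.ofReal (η * H) := by
  obtain ⟨H0, h0⟩ := h δ η hδ hη
  refine ⟨H0, fun H hH U => ?_⟩
  have h1 := h0 H hH U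
  simp only [cosSum_eq hab] at h1
  exact h1

theorem muc_eq (n : ℕ) (_hn : 1 ≤ n) : muc n = ((ArithmeticFunction.moebius n : ℤ) : ℂ) := rfl

theorem lac_eq (n : ℕ) (hn : 1 ≤ n) : lac n = ((liou n : ℤ) : ℂ) := by
  unfold lac liou
  rw [if_neg (by omega)]
  push_cast
  rfl

end Pool.Agent.IT
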